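import Pool.Agent.W448.FF.Stmts

set_option autoImplicit false

namespace Pool.Agent.W692.FF

open Finset Pool.Agent.W448.FF

theorem nn_symm {V : Type} (G : OG V) (u v : V) : nn G u v = nn G v u := by
  have h : G.adj u v ↔ G.adj v u := Or.comm
  unfold nn
  by_cases h' : G.adj u v
  · rw [if_pos h', if_pos (h.1 h')]
  · rw [if_neg h', if_neg (fun k => h' (h.2 k))]

theorem nn_nonneg {V : Type} (G : OG V) (u v : V) : 0 ≤ nn G u v := by
  unfold nn; split_ifs <;> norm_num

theorem nn_le {V : Type} (G : OG V) (u v : V) : nn G u v ≤ 1 := by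
  unfold nn; split_ifs <;> norm_num

theorem nn_cases {V : Type} (G : OG V) (u v : V) : nn G u v = 0 ∨ nn G u v = 1 := by
  unfold nn; split_ifs
  · exact Or.inl rfl
  · exact Or.inr rfl

theorem part_bound {V : Type} (G : OG V) (w : V → ℝ) (hw : ∀ v, 0 ≤ w v)
    (v : V) (A : Finset V) :
    2 * ((∑ u ∈ A, w u * nn G v u) * (∑ u ∈ A, w u - ∑ u ∈ A, w u * nn G v u)) - dI G w A ≤
      2 * ∑ u ∈ A, ∑ z ∈ A, w u * w z * ((1 - nn G v u) * (nn G u z * nn G v z)) := by
  have h1 : (∑ u ∈ A, w u * nn G v u) * (∑ u ∈ A, w u - ∑ u ∈ A, w u * nn G v u)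
      = ∑ u ∈ A, ∑ z ∈ A, w u * w z * ((1 - nn G v u) * nn G v z) := by
    rw [← Finset.sum_sub_distrib, mul_comm, Finset.sum_mul_sum]
    refine Finset.sum_congr rfl fun u _ => Finset.sum_congr rfl fun z _ => ?_
    ring
  have h2 : ∑ u ∈ A, ∑ z ∈ A, w u * w z * ((1 - nn G v u) * nn G v z)
      = ∑ u ∈ A, ∑ z ∈ A, w u * w z * ((1 - nn G v u) * (nn G u z * nn G v z))
        + ∑ u ∈ A, ∑ z ∈ A, w u * w z * ((1 - nn G v u) * nn G v z * (1 - nn G u z)) := by
    rw [← Finset.sum_add_distrib]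
    refine Finset.sum_congr rfl fun u _ => ?_
    rw [← Finset.sum_add_distrib]
    refine Finset.sum_congr rfl fun z _ => ?_
    ring
  have h3 : ∑ u ∈ A, ∑ z ∈ A, w u * w z * ((1 - nn G v u) * nn G v z * (1 - nn G u z))
      = ∑ u ∈ A, ∑ z ∈ A, w u * w z * ((1 - nn G v z) * nn G v u * (1 - nn G u z)) := by
    rw [Finset.sum_comm]
    refine Finset.sum_congr rfl fun u _ => Finset.sum_congr rfl fun z _ => ?_
    rw [nn_symm G z u]; ring
  have h4 : 2 * ∑ u ∈ A, ∑ z ∈ A, w u * w z * ((1 - nn G v u) * nn G v z * (1 - nn G u z))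
      ≤ dI G w A := by
    rw [two_mul]
    conv_lhs => rw [h3]
    have e : ∑ u ∈ A, ∑ z ∈ A, w u * w z * ((1 - nn G v z) * nn G v u * (1 - nn G u z))
        + ∑ u ∈ A, ∑ z ∈ A, w u * w z * ((1 - nn G v z) * nn G v u * (1 - nn G u z))
        = ∑ u ∈ A, ∑ z ∈ A, w u * w z * ((1 - nn G v u) * nn G v z * (1 - nn G u z))
        + ∑ u ∈ A, ∑ z ∈ A, w u * w z * ((1 - nn G v z) * nn G v u * (1 - nn G u z)) := by
      rw [h3]
    rw [e, ← Finset.sum_add_distrib]
    unfold dI
    refine Finset.sum_le_sum fun u _ => ?_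
    rw [← Finset.sum_add_distrib]
    refine Finset.sum_le_sum fun z _ => ?_
    have hww : 0 ≤ w u * w z := mul_nonneg (hw u) (hw z)
    have : w u * w z * ((1 - nn G v u) * nn G v z * (1 - nn G u z))
        + w u * w z * ((1 - nn G v z) * nn G v u * (1 - nn G u z))
        = w u * w z * (((1 - nn G v u) * nn G v z + (1 - nn G v z) * nn G v u)
          * (1 - nn G u z)) := by ring
    rw [this]
    refine mul_le_mul_of_nonneg_left ?_ hww
    rcases nn_cases G v u with h | h <;> rcases nn_cases G v z with h' | h' <;>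
      rcases nn_cases G u z with h'' | h'' <;> rw [h, h', h''] <;> norm_num
  rw [h1, h2]
  linarith

theorem pt : S_PT := by
  intro V _ G w p hw v
  obtain ⟨hw0, -⟩ := hw
  have hP : ∀ j, P w p j = ∑ u ∈ part p j, w u := by
    intro j; unfold P part; rw [Finset.sum_filter]
  have hN : ∀ j, nj G w p v j = ∑ u ∈ part p j, w u * nn G v u := by
    intro j; unfold nj part; rw [Finset.sum_filter]
  have hb := fun j => part_bound G w hw0 v (part p j)
  have hf : ∀ u z, 0 ≤ w u * w z * ((1 - nn G v u) * (nn G u z * nn G v z)) := by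
    intro u z
    refine mul_nonneg (mul_nonneg (hw0 u) (hw0 z)) (mul_nonneg ?_ ?_)
    · linarith [nn_le G v u]
    · exact mul_nonneg (nn_nonneg G u z) (nn_nonneg G v z)
  have hR : 2 * (∑ j : Fin 3, ∑ u ∈ part p j, ∑ z ∈ part p j,
      w u * w z * ((1 - nn G v u) * (nn G u z * nn G v z))) ≤ Rr G w v := by
    unfold Rr
    refine mul_le_mul_of_nonneg_left ?_ (by norm_num)
    rw [← Finset.sum_fiberwise (s := (Finset.univ : Finset V)) (g := p)
      (f := fun u => ∑ z, w u * w z * ((1 - nn G v u) * (nn G u z * nn G v z)))]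
    refine Finset.sum_le_sum fun j _ => ?_
    unfold part
    refine Finset.sum_le_sum fun u _ => ?_
    exact Finset.sum_le_sum_of_subset_of_nonneg (Finset.filter_subset _ _)
      (fun z _ _ => hf u z)
  rw [Fin.sum_univ_three] at hR
  have b0 := hb 0
  have b1 := hb 1
  have b2 := hb 2
  rw [hP, hP, hP, hN, hN, hN]
  linarith

end Pool.Agent.W692.FF

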